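import Pool.Agent.H19.TM.Stm4
import Pool.Graph.R_seed8.H305R2.MertensE

/-!
# Project TM3: the third theorem of Mertens (`S_J3`)
-/

set_option autoImplicit false

namespace Pool.Agent.H97.TM

open Finset Filter Topology Pool.Agent.Y862.GM Pool.Agent.H19.TM

lemma pr_eq_Icc (z : ℕ) : (Icc 1 z).filter Nat.Prime = pr z := by
  ext p
  simp only [pr, mem_filter, mem_Icc, mem_range]
  constructor
  · rintro ⟨h1, h2⟩
    exact ⟨by omega, h2⟩
  · rintro ⟨h1, h2⟩
    exact ⟨⟨h2.one_lt.le, by omega⟩, h2⟩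

lemma one_sub_pos {z p : ℕ} (hp : p ∈ pr z) : (0 : ℝ) < 1 - 1 / (p : ℝ) := by
  have h2 : (2 : ℝ) ≤ p := by exact_mod_cast ((mem_filter.1 hp).2).two_le
  have h1 : (1 : ℝ) / p ≤ 1 / 2 := one_div_le_one_div_of_le (by norm_num) h2
  linarith

lemma prod_pos' (z : ℕ) : (0 : ℝ) < ∏ p ∈ pr z, (1 - 1 / (p : ℝ)) := prod_pos fun _ hp => one_sub_pos hp

/-- the third theorem of Mertens -/
lemma mertens_prod : Tendsto (fun z : ℕ => (∏ p ∈ pr z, (1 - 1 / (p : ℝ))) * Real.log z) atTop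
    (𝓝 (Real.exp (-Real.eulerMascheroniConstant))) := by
  have h := (Pool.Agent.H305R2.mertens_three).inv₀ (Real.exp_pos _).ne'
  rw [← Real.exp_neg] at h
  refine h.congr fun z => ?_
  rw [pr_eq_Icc, prod_inv_distrib, inv_div, div_inv_eq_mul, mul_comm]
  simp only [one_div]

lemma Lz_pos (z : ℕ) : 0 < Lz z := div_pos (Real.exp_pos _) (prod_pos' z)

lemma Lz_tendsto : Tendsto (fun z : ℕ => Lz z / Real.log z) atTop (𝓝 1) := by
  have h := (mertens_prod.inv₀ (Real.exp_pos _).ne').const_mul (Real.exp (-Real.eulerMascheroniConstant))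
  rw [mul_inv_cancel₀ (Real.exp_pos _).ne'] at h
  refine h.congr fun z => ?_
  unfold Lz
  rw [div_div, div_eq_mul_inv]

lemma pr_succ_prime {z : ℕ} (h : (z + 1).Prime) : pr (z + 1) = insert (z + 1) (pr z) := by
  unfold pr
  rw [range_add_one, filter_insert, if_pos h]

lemma pr_succ_not {z : ℕ} (h : ¬ (z + 1).Prime) : pr (z + 1) = pr z := by
  unfold pr
  rw [range_add_one, filter_insert, if_neg h]

theorem t_J3 : S_J3 := by
  refine ⟨fun ε hε => ?_, Lz_pos, fun z hz => ?_, fun z hz => ?_⟩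
  · have h := Metric.tendsto_atTop.1 Lz_tendsto ε hε
    obtain ⟨Z0, hZ⟩ := h
    refine ⟨Z0, fun z hz => ?_⟩
    have := hZ z hz
    rw [Real.dist_eq] at this
    exact this.le
  · have hm : z + 1 ∉ pr z := by
      simp only [pr, mem_filter, mem_range, not_and_or]
      left
      omega
    have h1 : (0 : ℝ) < 1 - 1 / ((z + 1 : ℕ) : ℝ) := by
      have : z + 1 ∈ pr (z + 1) := by
        rw [pr_succ_prime hz]
        exact mem_insert_self _ _
      exact one_sub_pos this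
    unfold Lz
    rw [pr_succ_prime hz, prod_insert hm, mul_comm (1 - 1 / ((z + 1 : ℕ) : ℝ)), ← div_div,
      div_mul_cancel₀ _ h1.ne']
  · unfold Lz
    rw [pr_succ_not hz]

end Pool.Agent.H97.TM
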