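import Pool.Agent.H19.TM.Stm4

/-!
# Project TM3: the sum of `tau4 n / n` (`S_T4`)
-/

set_option autoImplicit false

namespace Pool.Agent.H97.TM

open Finset ArithmeticFunction Pool.Agent.Y862.GM Pool.Agent.H19.TM

lemma pow_succ_ge {a b : ℝ} (ha : 0 ≤ a) (hab : a ≤ b) (k : ℕ) :
    a ^ (k + 1) + (k + 1) * a ^ k * (b - a) ≤ b ^ (k + 1) := by
  induction k with
  | zero => simp
  | succ k ih =>
    have hb : 0 ≤ b := ha.trans hab
    have h1 : b * (a ^ (k + 1) + (k + 1) * a ^ k * (b - a)) ≤ b * b ^ (k + 1) :=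
      mul_le_mul_of_nonneg_left ih hb
    have h2 : a * ((k + 1) * a ^ k * (b - a)) ≤ b * ((k + 1) * a ^ k * (b - a)) :=
      mul_le_mul_of_nonneg_right hab (mul_nonneg (by positivity) (sub_nonneg.2 hab))
    have e1 : b ^ (k + 1 + 1) = b * b ^ (k + 1) := pow_succ' _ _
    have e2 : a ^ (k + 1 + 1) = a * a ^ (k + 1) := pow_succ' _ _
    have e3 : a ^ (k + 1) = a * a ^ k := pow_succ' _ _
    push_cast
    rw [e1, e2]
    rw [e3] at h1 ⊢
    nlinarith

lemma pow_succ_le {a b : ℝ} (ha : 0 ≤ a) (hab : a ≤ b) (k : ℕ) :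
    b ^ (k + 1) ≤ a ^ (k + 1) + (k + 1) * b ^ k * (b - a) := by
  induction k with
  | zero => simp
  | succ k ih =>
    have hb : 0 ≤ b := ha.trans hab
    have h1 : b * b ^ (k + 1) ≤ b * (a ^ (k + 1) + (k + 1) * b ^ k * (b - a)) :=
      mul_le_mul_of_nonneg_left ih hb
    have h2 : a ^ (k + 1) * (b - a) ≤ b ^ (k + 1) * (b - a) :=
      mul_le_mul_of_nonneg_right (pow_le_pow_left₀ ha hab _) (sub_nonneg.2 hab)
    have e1 : b ^ (k + 1 + 1) = b * b ^ (k + 1) := pow_succ' _ _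
    have e2 : a ^ (k + 1 + 1) = a * a ^ (k + 1) := pow_succ' _ _
    have e3 : b ^ (k + 1) = b * b ^ k := pow_succ' _ _
    push_cast
    rw [e1, e2]
    rw [e3] at h1 h2 ⊢
    nlinarith

/-- `log (N / d)` -/
noncomputable def uu (N d : ℕ) : ℝ := Real.log ((N : ℝ) / d)

lemma uu_nonneg {N d : ℕ} (hd : 1 ≤ d) (hN : d ≤ N) : 0 ≤ uu N d := by
  have h1 : (1 : ℝ) ≤ d := by exact_mod_cast hd
  have h2 : (d : ℝ) ≤ N := by exact_mod_cast hN
  refine Real.log_nonneg ?_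
  rw [le_div_iff₀ (by linarith)]
  linarith

lemma uu_one (N : ℕ) : uu N 1 = Real.log N := by
  unfold uu
  simp

lemma uu_le {N d : ℕ} (hd : 1 ≤ d) (hN : d ≤ N) : uu N d ≤ Real.log N := by
  have h1 : (1 : ℝ) ≤ d := by exact_mod_cast hd
  have h2 : (d : ℝ) ≤ N := by exact_mod_cast hN
  have h3 : (0 : ℝ) < N := by linarith
  have h4 : (0 : ℝ) < d := by linarith
  refine Real.log_le_log (by positivity) ?_
  rw [div_le_iff₀ (by linarith)]
  nlinarith

lemma uu_step {N d : ℕ} (hd : 1 ≤ d) (hN : d + 1 ≤ N) :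
    1 / ((d : ℝ) + 1) ≤ uu N d - uu N (d + 1) ∧ uu N d - uu N (d + 1) ≤ 1 / d := by
  have h1 : (1 : ℝ) ≤ d := by exact_mod_cast hd
  have h2 : ((d : ℝ) + 1) ≤ N := by exact_mod_cast hN
  have h3 : (0 : ℝ) < N := by linarith
  have e : uu N d - uu N (d + 1) = Real.log (1 + 1 / (d : ℝ)) := by
    unfold uu
    rw [← Real.log_div (by positivity) (by positivity)]
    congr 1
    push_cast
    field_simp
  rw [e]
  constructor
  · have := Real.one_sub_inv_le_log_of_pos (show (0 : ℝ) < 1 + 1 / (d : ℝ) by positivity)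
    refine le_trans (le_of_eq ?_) this
    field_simp
    ring
  · have := Real.log_le_sub_one_of_pos (show (0 : ℝ) < 1 + 1 / (d : ℝ) by positivity)
    linarith

lemma cmp_low {N : ℕ} (k M : ℕ) (hM : M + 1 ≤ N) :
    (uu N 1 ^ (k + 1) - uu N (M + 1) ^ (k + 1)) / (k + 1) ≤ ∑ d ∈ Ioc 0 M, uu N d ^ k / d := by
  induction M with
  | zero => simp
  | succ M ih =>
    have ih := ih (by omega)
    rw [sum_Ioc_succ_top (by omega)]
    obtain ⟨-, h2⟩ := uu_step (N := N) (d := M + 1) (by omega) (by omega)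
    have h0 := uu_nonneg (N := N) (d := M + 1 + 1) (by omega) (by omega)
    have hM0 : (0 : ℝ) < ((M + 1 : ℕ) : ℝ) := by positivity
    have h1 : uu N (M + 1 + 1) ≤ uu N (M + 1) := by
      have := (uu_step (N := N) (d := M + 1) (by omega) (by omega)).1
      have h3 : (0 : ℝ) ≤ 1 / (((M + 1 : ℕ) : ℝ) + 1) := by positivity
      linarith
    have h4 := pow_succ_le h0 h1 k
    have hk : (0 : ℝ) < (k : ℝ) + 1 := by positivity
    have h5 : (uu N (M + 1) ^ (k + 1) - uu N (M + 1 + 1) ^ (k + 1)) / (k + 1) ≤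
        uu N (M + 1) ^ k / ((M + 1 : ℕ) : ℝ) := by
      rw [div_le_iff₀ hk]
      have h6 : (k + 1) * uu N (M + 1) ^ k * (uu N (M + 1) - uu N (M + 1 + 1)) ≤
          (k + 1) * uu N (M + 1) ^ k * (1 / ((M + 1 : ℕ) : ℝ)) :=
        mul_le_mul_of_nonneg_left h2 (mul_nonneg hk.le (pow_nonneg (h0.trans h1) k))
      calc _ ≤ (k + 1) * uu N (M + 1) ^ k * (1 / ((M + 1 : ℕ) : ℝ)) := by linarith
        _ = _ := by ring
    calc _ = (uu N 1 ^ (k + 1) - uu N (M + 1) ^ (k + 1)) / (k + 1) +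
        (uu N (M + 1) ^ (k + 1) - uu N (M + 1 + 1) ^ (k + 1)) / (k + 1) := by ring
      _ ≤ _ := add_le_add ih h5

lemma cmp_up {N : ℕ} (k M : ℕ) (hM : M + 1 ≤ N) :
    ∑ d ∈ Ioc 0 (M + 1), uu N d ^ k / d ≤ uu N 1 ^ k + (uu N 1 ^ (k + 1) - uu N (M + 1) ^ (k + 1)) / (k + 1) := by
  induction M with
  | zero => simp
  | succ M ih =>
    have ih := ih (by omega)
    rw [sum_Ioc_succ_top (by omega)]
    obtain ⟨h2, -⟩ := uu_step (N := N) (d := M + 1) (by omega) (by omega)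
    have h0 := uu_nonneg (N := N) (d := M + 1 + 1) (by omega) (by omega)
    have h1 : uu N (M + 1 + 1) ≤ uu N (M + 1) := by
      have h3 : (0 : ℝ) ≤ 1 / (((M + 1 : ℕ) : ℝ) + 1) := by positivity
      linarith
    have h4 := pow_succ_ge h0 h1 k
    have hk : (0 : ℝ) < (k : ℝ) + 1 := by positivity
    have h5 : uu N (M + 1 + 1) ^ k / ((M + 1 + 1 : ℕ) : ℝ) ≤
        (uu N (M + 1) ^ (k + 1) - uu N (M + 1 + 1) ^ (k + 1)) / (k + 1) := by
      rw [le_div_iff₀ hk]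
      have h6 : (k + 1) * uu N (M + 1 + 1) ^ k * (1 / (((M + 1 : ℕ) : ℝ) + 1)) ≤
          (k + 1) * uu N (M + 1 + 1) ^ k * (uu N (M + 1) - uu N (M + 1 + 1)) :=
        mul_le_mul_of_nonneg_left h2 (mul_nonneg hk.le (pow_nonneg h0 k))
      have e : ((M + 1 + 1 : ℕ) : ℝ) = ((M + 1 : ℕ) : ℝ) + 1 := by push_cast; ring
      rw [e]
      calc uu N (M + 1 + 1) ^ k / (((M + 1 : ℕ) : ℝ) + 1) * ((k : ℝ) + 1) =
          (k + 1) * uu N (M + 1 + 1) ^ k * (1 / (((M + 1 : ℕ) : ℝ) + 1)) := by ring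
        _ ≤ _ := by linarith
    calc _ ≤ uu N 1 ^ k + (uu N 1 ^ (k + 1) - uu N (M + 1) ^ (k + 1)) / (k + 1) +
        (uu N (M + 1) ^ (k + 1) - uu N (M + 1 + 1) ^ (k + 1)) / (k + 1) := add_le_add ih h5
      _ = _ := by ring

lemma cmp {N : ℕ} (hN : 1 ≤ N) (k : ℕ) :
    |∑ d ∈ Ioc 0 N, uu N d ^ k / d - Real.log N ^ (k + 1) / (k + 1)| ≤ Real.log N ^ k := by
  obtain ⟨M, rfl⟩ : ∃ M, N = M + 1 := ⟨N - 1, by omega⟩
  have h1 := cmp_low k M (N := M + 1) le_rfl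
  have h2 := cmp_up k M (N := M + 1) le_rfl
  have e : uu (M + 1) (M + 1) = 0 := by
    unfold uu
    rw [div_self (by positivity), Real.log_one]
  have h3 : ∑ d ∈ Ioc 0 M, uu (M + 1) d ^ k / (d : ℝ) ≤ ∑ d ∈ Ioc 0 (M + 1), uu (M + 1) d ^ k / (d : ℝ) := by
    rw [sum_Ioc_succ_top (by omega)]
    have : 0 ≤ uu (M + 1) (M + 1) ^ k / ((M + 1 : ℕ) : ℝ) :=
      div_nonneg (pow_nonneg e.ge k) (by positivity)
    linarith
  rw [e, zero_pow (by omega), sub_zero, uu_one] at h1 h2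
  have h4 : 0 ≤ Real.log ((M + 1 : ℕ) : ℝ) ^ k :=
    pow_nonneg (Real.log_nonneg (by push_cast; linarith [(Nat.cast_nonneg M : (0 : ℝ) ≤ M)])) k
  rw [abs_le]
  constructor <;> linarith

/-- the function `1 / n` -/
noncomputable def w : ArithmeticFunction ℝ := ⟨fun n => 1 / (n : ℝ), by simp⟩

lemma w_apply (n : ℕ) : w n = 1 / (n : ℝ) := rfl

lemma uu_floor {N n : ℕ} (hn : 1 ≤ n) (hN : n ≤ N) :
    0 ≤ Real.log ((N / n : ℕ) : ℝ) ∧ Real.log ((N / n : ℕ) : ℝ) ≤ uu N n ∧ uu N n - Real.log ((N / n : ℕ) : ℝ) ≤ 1 := by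
  have h1 : 1 ≤ N / n := (Nat.one_le_div_iff (by omega)).2 hN
  have h1' : (1 : ℝ) ≤ ((N / n : ℕ) : ℝ) := by exact_mod_cast h1
  have hn0 : (0 : ℝ) < n := by exact_mod_cast hn
  have hN0 : (0 : ℝ) < N := by exact_mod_cast (lt_of_lt_of_le hn hN)
  have h2 : ((N / n : ℕ) : ℝ) ≤ (N : ℝ) / n := Nat.cast_div_le
  have h3 : (N : ℝ) / n ≤ 2 * ((N / n : ℕ) : ℝ) := by
    rw [div_le_iff₀ hn0]
    have : N < (N / n + 1) * n := by
      have := Nat.lt_div_mul_add (a := N) (b := n) (by omega)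
      calc N < N / n * n + n := this
        _ = _ := by ring
    have h4 : (N : ℝ) < ((N / n : ℕ) + 1) * n := by exact_mod_cast this
    nlinarith
  refine ⟨Real.log_nonneg h1', Real.log_le_log (by linarith) h2, ?_⟩
  have h4 : uu N n ≤ Real.log (2 * ((N / n : ℕ) : ℝ)) := Real.log_le_log (by positivity) h3
  rw [Real.log_mul (by norm_num) (by linarith)] at h4
  have := Real.log_two_lt_d9
  linarith

theorem sum_w_pow (k : ℕ) : ∃ C : ℝ, 0 ≤ C ∧ ∀ N : ℕ, 1 ≤ N →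
    |∑ n ∈ Ioc 0 N, (w ^ (k + 1)) n - Real.log N ^ (k + 1) / ((k + 1).factorial : ℝ)| ≤
      C * (1 + Real.log N) ^ k := by
  have base : ∀ N : ℕ, 1 ≤ N → |∑ n ∈ Ioc 0 N, 1 / (n : ℝ) - Real.log N| ≤ 1 := by
    intro N hN
    have := cmp hN 0
    simpa using this
  induction k with
  | zero =>
    refine ⟨1, zero_le_one, fun N hN => ?_⟩
    have := base N hN
    simpa [w_apply] using this
  | succ k ih =>
    obtain ⟨C, hC, ih⟩ := ih
    refine ⟨C + 2, by linarith, fun N hN => ?_⟩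
    have hN1 : (1 : ℝ) ≤ N := by exact_mod_cast hN
    obtain ⟨L, hL⟩ : ∃ L, L = Real.log N := ⟨_, rfl⟩
    have hL0 : 0 ≤ L := by rw [hL]; exact Real.log_nonneg hN1
    have hH : ∑ n ∈ Ioc 0 N, 1 / (n : ℝ) ≤ 1 + L := by
      have := (abs_le.1 (base N hN)).2
      rw [hL]
      linarith
    have hF : (0 : ℝ) < ((k + 1).factorial : ℝ) := by positivity
    have e0 : ∑ n ∈ Ioc 0 N, (w ^ (k + 1 + 1)) n =
        ∑ n ∈ Ioc 0 N, 1 / (n : ℝ) * ∑ m ∈ Ioc 0 (N / n), (w ^ (k + 1)) m := by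
      rw [pow_succ', sum_Ioc_mul_eq_sum_sum]
      rfl
    -- compare with the sum of the powers of `log (N / n)`
    have h1 : |∑ n ∈ Ioc 0 N, (w ^ (k + 1 + 1)) n -
        (∑ n ∈ Ioc 0 N, uu N n ^ (k + 1) / n) / ((k + 1).factorial : ℝ)| ≤ (C + 1) * (1 + L) ^ (k + 1) := by
      rw [e0, sum_div, ← sum_sub_distrib]
      refine (abs_sum_le_sum_abs _ _).trans ?_
      have h2 : ∀ n ∈ Ioc 0 N, |1 / (n : ℝ) * ∑ m ∈ Ioc 0 (N / n), (w ^ (k + 1)) m -
          uu N n ^ (k + 1) / n / ((k + 1).factorial : ℝ)| ≤ 1 / (n : ℝ) * ((C + 1) * (1 + L) ^ k) := by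
        intro n hn
        obtain ⟨hn1, hn2⟩ := mem_Ioc.1 hn
        have hn0 : (0 : ℝ) < n := by exact_mod_cast hn1
        obtain ⟨f1, f2, f3⟩ := uu_floor (N := N) (n := n) hn1 hn2
        have f4 := uu_le (N := N) (d := n) hn1 hn2
        rw [← hL] at f4
        obtain ⟨v, hv⟩ : ∃ v, v = Real.log ((N / n : ℕ) : ℝ) := ⟨_, rfl⟩
        have g1 := ih (N / n) ((Nat.one_le_div_iff (by omega)).2 hn2)
        rw [← hv] at f1 f2 f3 g1
        have g2 : C * (1 + v) ^ k ≤ C * (1 + L) ^ k :=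
          mul_le_mul_of_nonneg_left (pow_le_pow_left₀ (by linarith) (by linarith) k) hC
        have g3 : |v ^ (k + 1) / ((k + 1).factorial : ℝ) - uu N n ^ (k + 1) / ((k + 1).factorial : ℝ)| ≤
            (1 + L) ^ k := by
          rw [← sub_div, abs_div, abs_of_pos hF, div_le_iff₀ hF, abs_sub_comm,
            abs_of_nonneg (sub_nonneg.2 (pow_le_pow_left₀ f1 f2 _))]
          have a1 := pow_succ_le f1 f2 k
          have a2 : ((k : ℝ) + 1) * uu N n ^ k * (uu N n - v) ≤ ((k : ℝ) + 1) * (1 + L) ^ k * 1 := by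
            refine mul_le_mul ?_ f3 (by linarith) (by positivity)
            refine mul_le_mul_of_nonneg_left (pow_le_pow_left₀ (f1.trans f2) (by linarith) k) (by positivity)
          have a3 : ((k : ℝ) + 1) ≤ ((k + 1).factorial : ℝ) := by
            have := Nat.self_le_factorial (k + 1)
            exact_mod_cast this
          have a4 : ((k : ℝ) + 1) * (1 + L) ^ k ≤ ((k + 1).factorial : ℝ) * (1 + L) ^ k :=
            mul_le_mul_of_nonneg_right a3 (by positivity)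
          linarith
        have e1 : 1 / (n : ℝ) * ∑ m ∈ Ioc 0 (N / n), (w ^ (k + 1)) m -
            uu N n ^ (k + 1) / n / ((k + 1).factorial : ℝ) =
            1 / (n : ℝ) * (∑ m ∈ Ioc 0 (N / n), (w ^ (k + 1)) m - uu N n ^ (k + 1) / ((k + 1).factorial : ℝ)) := by
          ring
        rw [e1, abs_mul, abs_of_nonneg (by positivity : (0 : ℝ) ≤ 1 / n)]
        refine mul_le_mul_of_nonneg_left ?_ (by positivity)
        have g4 := abs_sub_le (∑ m ∈ Ioc 0 (N / n), (w ^ (k + 1)) m) (v ^ (k + 1) / ((k + 1).factorial : ℝ))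
          (uu N n ^ (k + 1) / ((k + 1).factorial : ℝ))
        linarith
      refine (sum_le_sum h2).trans ?_
      rw [← sum_mul]
      have h3 : (∑ n ∈ Ioc 0 N, 1 / (n : ℝ)) * ((C + 1) * (1 + L) ^ k) ≤ (1 + L) * ((C + 1) * (1 + L) ^ k) :=
        mul_le_mul_of_nonneg_right hH (by positivity)
      refine h3.trans (le_of_eq ?_)
      ring
    have h4 : |(∑ n ∈ Ioc 0 N, uu N n ^ (k + 1) / n) / ((k + 1).factorial : ℝ) -
        L ^ (k + 1 + 1) / ((k + 1 + 1).factorial : ℝ)| ≤ (1 + L) ^ (k + 1) := by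
      have h5 := cmp hN (k + 1)
      rw [← hL] at h5
      have e1 : L ^ (k + 1 + 1) / ((k + 1 + 1).factorial : ℝ) =
          L ^ (k + 1 + 1) / (((k + 1 : ℕ) : ℝ) + 1) / ((k + 1).factorial : ℝ) := by
        rw [Nat.factorial_succ (k + 1), div_div]
        push_cast
        rfl
      rw [e1, ← sub_div, abs_div, abs_of_pos hF, div_le_iff₀ hF]
      have h6 : L ^ (k + 1) ≤ (1 + L) ^ (k + 1) := pow_le_pow_left₀ hL0 (by linarith) _
      have h7 : (1 : ℝ) ≤ ((k + 1).factorial : ℝ) := by exact_mod_cast Nat.one_le_iff_ne_zero.2 (Nat.factorial_ne_zero _)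
      have h8 : (1 + L) ^ (k + 1) * 1 ≤ (1 + L) ^ (k + 1) * ((k + 1).factorial : ℝ) :=
        mul_le_mul_of_nonneg_left h7 (by positivity)
      linarith
    have h9 := abs_sub_le (∑ n ∈ Ioc 0 N, (w ^ (k + 1 + 1)) n)
      ((∑ n ∈ Ioc 0 N, uu N n ^ (k + 1) / n) / ((k + 1).factorial : ℝ))
      (L ^ (k + 1 + 1) / ((k + 1 + 1).factorial : ℝ))
    rw [← hL]
    calc _ ≤ _ := h9
      _ ≤ (C + 1) * (1 + L) ^ (k + 1) + (1 + L) ^ (k + 1) := add_le_add h1 h4
      _ = _ := by ring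

lemma w_sq (n : ℕ) : (w ^ 2) n = (n.divisors.card : ℝ) / n := by
  rw [pow_two, mul_apply]
  have h : ∀ x ∈ n.divisorsAntidiagonal, w x.1 * w x.2 = 1 / (n : ℝ) := by
    intro x hx
    have := (Nat.mem_divisorsAntidiagonal.1 hx).1
    rw [w_apply, w_apply, ← this]
    push_cast
    rw [one_div_mul_one_div]
  rw [sum_congr rfl h, sum_const, nsmul_eq_mul]
  have e : n.divisorsAntidiagonal.card = n.divisors.card := by
    rw [← Nat.map_div_right_divisors, card_map]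
  rw [e]
  ring

lemma w_four (n : ℕ) : (w ^ 4) n = (tau4 n : ℝ) / n := by
  have e : (w ^ 4 : ArithmeticFunction ℝ) = w ^ 2 * w ^ 2 := by ring
  rw [e, mul_apply, Nat.sum_divisorsAntidiagonal (f := fun a b => (w ^ 2) a * (w ^ 2) b)]
  unfold tau4
  push_cast
  rw [sum_div]
  refine sum_congr rfl fun d hd => ?_
  have hd' := Nat.mem_divisors.1 hd
  have hd0 : (0 : ℝ) < d := by exact_mod_cast Nat.pos_of_dvd_of_pos hd'.1 (Nat.pos_of_ne_zero hd'.2)
  have hn0 : (0 : ℝ) < n := by exact_mod_cast Nat.pos_of_ne_zero hd'.2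
  rw [w_sq, w_sq, Nat.cast_div hd'.1 hd0.ne']
  field_simp

theorem t_T4 : S_T4 := by
  obtain ⟨C, hC, h⟩ := sum_w_pow 3
  refine ⟨C, hC, fun b hb => ?_⟩
  have := h b hb
  have e : Icc 1 b = Ioc 0 b := rfl
  rw [e]
  have e1 : ∀ n, (w ^ (3 + 1)) n = (tau4 n : ℝ) / n := w_four
  simp only [e1] at this
  have e2 : ((3 + 1).factorial : ℝ) = 24 := by norm_num [Nat.factorial]
  rw [e2] at this
  exact this

end Pool.Agent.H97.TM
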