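import Pool.Agent.H97.TM.J3
import Pool.Agent.H97.TM.T4

/-!
# Project TM3: `Gd (pr y) b` for `b ≤ y` (`S_EX`)
-/

set_option autoImplicit false

namespace Pool.Agent.H97.TM

open Finset Filter Topology Pool.Agent.Y862.GM Pool.Agent.H19.TM

lemma filter_smooth {y b : ℕ} (h : b ≤ y) :
    (Icc 1 b).filter (fun n => n.primeFactors ⊆ pr y) = Icc 1 b := by
  refine filter_true_of_mem fun n hn => ?_
  intro p hp
  have h1 := Nat.prime_of_mem_primeFactors hp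
  have h2 := Nat.le_of_mem_primeFactors hp
  have h3 := (mem_Icc.1 hn).2
  simp only [pr, mem_filter, mem_range]
  exact ⟨by omega, h1⟩

lemma V_eq (y : ℕ) : V (pr y) = (∏ p ∈ pr y, (1 - 1 / (p : ℝ))) ^ 2 := prod_pow _ _ _

theorem t_EX (h : S_T4) : S_EX := by
  intro ε hε
  obtain ⟨C, hC, hT⟩ := h
  obtain ⟨g, hg⟩ : ∃ g, g = Real.exp (-(4 * Real.eulerMascheroniConstant)) := ⟨_, rfl⟩
  have hm : Tendsto (fun z : ℕ => ((∏ p ∈ pr z, (1 - 1 / (p : ℝ))) * Real.log z) ^ 4) atTop (𝓝 g) := by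
    have := mertens_prod.pow 4
    rw [← Real.exp_nat_mul] at this
    have e : ((4 : ℕ) : ℝ) * -Real.eulerMascheroniConstant = -(4 * Real.eulerMascheroniConstant) := by
      push_cast
      ring
    rw [e, ← hg] at this
    exact this
  have hg0 : 0 < g := by rw [hg]; exact Real.exp_pos _
  obtain ⟨A1, hA1⟩ := Metric.tendsto_atTop.1 hm (min ε 1) (lt_min hε one_pos)
  have hlog : Tendsto (fun b : ℕ => Real.log b) atTop atTop :=
    Real.tendsto_log_atTop.comp tendsto_natCast_atTop_atTop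
  obtain ⟨A2, hA2⟩ := eventually_atTop.1 (hlog.eventually_ge_atTop (max 1 (16 * (g + 1) * C / ε)))
  refine ⟨max A1 (max A2 1), fun y b hb hby => ?_⟩
  have hbA1 : A1 ≤ y := (le_max_left _ _).trans (hb.trans hby)
  have hbA2 : A2 ≤ b := ((le_max_left _ _).trans (le_max_right _ _)).trans hb
  have hb1 : 1 ≤ b := ((le_max_right _ _).trans (le_max_right _ _)).trans hb
  have hb1' : (1 : ℝ) ≤ b := by exact_mod_cast hb1
  have hby' : (b : ℝ) ≤ y := by exact_mod_cast hby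
  have h1 := hA1 y hbA1
  rw [Real.dist_eq] at h1
  have h2 := hA2 b hbA2
  have h3 := hT b hb1
  obtain ⟨P, hP⟩ : ∃ P, P = ∏ p ∈ pr y, (1 - 1 / (p : ℝ)) := ⟨_, rfl⟩
  obtain ⟨L, hL⟩ : ∃ L, L = Real.log b := ⟨_, rfl⟩
  obtain ⟨Y, hY⟩ : ∃ Y, Y = Real.log y := ⟨_, rfl⟩
  obtain ⟨S, hS⟩ : ∃ S, S = ∑ n ∈ Icc 1 b, (tau4 n : ℝ) / n := ⟨_, rfl⟩
  have hLY : L ≤ Y := by rw [hL, hY]; exact Real.log_le_log (by linarith) hby'
  have e : Gd (pr y) b = P ^ 4 * S := by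
    unfold Gd
    rw [filter_smooth hby, V_eq, ← hP, ← hS]
    ring
  rw [e, ← hg, ← hL, ← hY]
  rw [← hP, ← hY] at h1
  rw [← hL] at h2 h3
  rw [← hS] at h3
  have hL1 : 1 ≤ L := (le_max_left _ _).trans h2
  have hL2 : 16 * (g + 1) * C / ε ≤ L := (le_max_right _ _).trans h2
  have hY1 : 1 ≤ Y := hL1.trans hLY
  have hY0 : 0 < Y := by linarith
  have hL0 : 0 < L := by linarith
  obtain ⟨Q, hQ⟩ : ∃ Q, Q = (P * Y) ^ 4 := ⟨_, rfl⟩
  rw [← hQ] at h1
  have hQg : |Q - g| ≤ ε := h1.le.trans (min_le_left _ _)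
  have hQ1 : Q ≤ g + 1 := by
    have := (abs_le.1 (h1.le.trans (min_le_right _ _))).2
    linarith
  have hQ0 : 0 ≤ Q := by rw [hQ]; positivity
  have e2 : P ^ 4 * S - g / 24 * (L / Y) ^ 4 =
      (Q - g) / 24 * (L / Y) ^ 4 + Q / Y ^ 4 * (S - L ^ 4 / 24) := by
    rw [hQ]
    field_simp
    ring
  have hr : L / Y ≤ 1 := (div_le_one hY0).2 hLY
  have hr4 : (L / Y) ^ 4 ≤ 1 := pow_le_one₀ (by positivity) hr
  have t1 : |(Q - g) / 24 * (L / Y) ^ 4| ≤ ε / 2 := by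
    rw [abs_mul, abs_of_nonneg (by positivity : (0 : ℝ) ≤ (L / Y) ^ 4), abs_div,
      abs_of_pos (by norm_num : (0 : ℝ) < 24)]
    have : |Q - g| / 24 * (L / Y) ^ 4 ≤ |Q - g| / 24 * 1 := mul_le_mul_of_nonneg_left hr4 (by positivity)
    linarith [abs_nonneg (Q - g)]
  have t2 : |Q / Y ^ 4 * (S - L ^ 4 / 24)| ≤ ε / 2 := by
    rw [abs_mul, abs_of_nonneg (by positivity : (0 : ℝ) ≤ Q / Y ^ 4)]
    have s1 : Q / Y ^ 4 * |S - L ^ 4 / 24| ≤ (g + 1) / Y ^ 4 * (C * (2 * Y) ^ 3) := by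
      refine mul_le_mul (div_le_div_of_nonneg_right hQ1 (by positivity)) (h3.trans ?_) (abs_nonneg _) (by positivity)
      exact mul_le_mul_of_nonneg_left (pow_le_pow_left₀ (by linarith) (by linarith) 3) hC
    have s2 : (g + 1) / Y ^ 4 * (C * (2 * Y) ^ 3) = 8 * (g + 1) * C / Y := by
      field_simp
      ring
    rw [s2] at s1
    refine s1.trans ?_
    rw [div_le_iff₀ hY0]
    have s3 : 16 * (g + 1) * C ≤ L * ε := (div_le_iff₀ hε).1 hL2
    have s4 : L * ε ≤ Y * ε := mul_le_mul_of_nonneg_right hLY hε.le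
    linarith
  rw [e2]
  refine (abs_add_le _ _).trans ?_
  linarith

end Pool.Agent.H97.TM
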